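import Pool.Agent.H18.KC.Stmts

/-!
# Board kc, module GKB: the bound for `G_k = X_k / V_k` from the doubling inequality
-/

set_option autoImplicit false

open Finset

namespace Pool.Agent.H18.KC

theorem gkb_pos {L : ℝ} {k : ℕ} {V : ℕ → ℝ} (hL : 0 < L) (h0 : 0 < V 0)
    (hV : ∀ j, j < k → 9 / 10 * L * V j ≤ V (j + 1)) : ∀ j, j ≤ k → 0 < V j := by
  intro j
  induction j with
  | zero => intro _; exact h0
  | succ j ih =>
    intro h
    have h1 := ih (by omega)
    have h2 := hV j (by omega)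
    have : 0 < 9 / 10 * L * V j := by positivity
    linarith

theorem gkb_pow {L : ℝ} {k : ℕ} {V : ℕ → ℝ} (hL : 0 < L)
    (hV : ∀ j, j < k → 9 / 10 * L * V j ≤ V (j + 1)) :
    ∀ i, i ≤ k → (9 / 10 * L) ^ i * V (k - i) ≤ V k := by
  intro i
  induction i with
  | zero => intro _; simp
  | succ i ih =>
    intro h
    have h1 := ih (by omega)
    have h2 := hV (k - (i + 1)) (by omega)
    have h3 : k - (i + 1) + 1 = k - i := by omega
    rw [h3] at h2
    calc (9 / 10 * L) ^ (i + 1) * V (k - (i + 1))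
        = (9 / 10 * L) ^ i * (9 / 10 * L * V (k - (i + 1))) := by ring
      _ ≤ (9 / 10 * L) ^ i * V (k - i) := by
          apply mul_le_mul_of_nonneg_left h2; positivity
      _ ≤ V k := h1

theorem gkb_num (n j : ℕ) (hj : j ≤ 3 * n + 1) :
    ((10 : ℝ) ^ 5) ^ (n + 1) * (1 / 10 ^ 9) ^ n * (10 / 9) ^ (j + 1) ≤
      2 * 10 ^ 7 * (1 / 64) ^ (n + 1) * (1 / 2) ^ j := by
  have h1 : ((10 : ℝ) / 9) ^ (j + 1) * 2 ^ j ≤ (10 / 9) ^ (3 * n + 2) * 2 ^ (3 * n + 1) := by
    apply mul_le_mul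
    · apply pow_le_pow_right₀ (by norm_num) (by omega)
    · apply pow_le_pow_right₀ (by norm_num) hj
    · positivity
    · positivity
  have h2 : ((10 : ℝ) / 9) ^ (3 * n + 2) * 2 ^ (3 * n + 1) =
      (100 / 81 * 2) * ((1000 / 729) * 8) ^ n := by
    rw [pow_add, pow_add, pow_mul, pow_mul, mul_pow]
    norm_num
    ring
  have h3 : ((10 : ℝ) ^ 5) ^ (n + 1) * (1 / 10 ^ 9) ^ n * 64 ^ (n + 1) *
      ((10 / 9) ^ (j + 1) * 2 ^ j) ≤ 2 * 10 ^ 7 := by
    calc ((10 : ℝ) ^ 5) ^ (n + 1) * (1 / 10 ^ 9) ^ n * 64 ^ (n + 1) *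
      ((10 / 9) ^ (j + 1) * 2 ^ j)
        ≤ ((10 : ℝ) ^ 5) ^ (n + 1) * (1 / 10 ^ 9) ^ n * 64 ^ (n + 1) *
          ((100 / 81 * 2) * ((1000 / 729) * 8) ^ n) := by
          rw [← h2]
          apply mul_le_mul_of_nonneg_left h1; positivity
      _ = (10 ^ 5 * 64 * (100 / 81 * 2)) *
          (10 ^ 5 * (1 / 10 ^ 9) * 64 * ((1000 / 729) * 8)) ^ n := by
          simp only [mul_pow, pow_succ]
          ring
      _ ≤ (10 ^ 5 * 64 * (100 / 81 * 2)) * 1 := by
          apply mul_le_mul_of_nonneg_left _ (by norm_num)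
          apply pow_le_one₀ (by norm_num) (by norm_num)
      _ ≤ 2 * 10 ^ 7 := by norm_num
  have h4 : (2 : ℝ) * 10 ^ 7 * (1 / 64) ^ (n + 1) * (1 / 2) ^ j =
      2 * 10 ^ 7 * ((1 / 64) ^ (n + 1) * (1 / 2) ^ j) := by ring
  rw [h4]
  have h5 : ((10 : ℝ) ^ 5) ^ (n + 1) * (1 / 10 ^ 9) ^ n * (10 / 9) ^ (j + 1) =
      (((10 : ℝ) ^ 5) ^ (n + 1) * (1 / 10 ^ 9) ^ n * 64 ^ (n + 1) *
      ((10 / 9) ^ (j + 1) * 2 ^ j)) * ((1 / 64) ^ (n + 1) * (1 / 2) ^ j) := by
    have h6 : (64 : ℝ) ^ (n + 1) * (1 / 64) ^ (n + 1) = 1 := by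
      rw [← mul_pow]; norm_num
    have h7 : (2 : ℝ) ^ j * (1 / 2) ^ j = 1 := by
      rw [← mul_pow]; norm_num
    calc ((10 : ℝ) ^ 5) ^ (n + 1) * (1 / 10 ^ 9) ^ n * (10 / 9) ^ (j + 1)
        = ((10 : ℝ) ^ 5) ^ (n + 1) * (1 / 10 ^ 9) ^ n * (10 / 9) ^ (j + 1) *
          ((64 : ℝ) ^ (n + 1) * (1 / 64) ^ (n + 1)) * ((2 : ℝ) ^ j * (1 / 2) ^ j) := by
          rw [h6, h7]; ring
      _ = _ := by ring
  rw [h5]
  apply mul_le_mul_of_nonneg_right h3
  positivity

theorem gkb_thm : GKBStmt := by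
  intro Q L k V R S hQ hL h0 hV hR hS hSb hD
  have hLp : 0 < L := by linarith
  have hQp : 0 < Q := by linarith
  have hVpos := gkb_pos hLp h0 hV
  have hVpow := gkb_pow hLp hV
  have hVk : 0 < V k := hVpos k le_rfl
  set ε : ℕ → ℝ := fun j => R (k - 1 - j) / (L ^ 2 * V (k - 1 - j)) with hε
  have hε0 : ∀ j, 0 ≤ ε j := by
    intro j
    simp only [hε]
    have := hVpos (k - 1 - j) (by omega)
    have := hR (k - 1 - j)
    positivity
  -- the terms of the sum
  have hterm : ∀ n j : ℕ, n + 1 ≤ j → j ≤ 3 * n + 1 → j < k →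
      ((10 : ℝ) ^ 5) ^ (n + 1) * Q ^ n * (L ^ (j - (n + 1)) * R (k - 1 - j)) ≤
      (2 * 10 ^ 7 * (1 / 64) ^ (n + 1)) * ((1 / 2) ^ j * ε j) * V k := by
    intro n j h1 h2 h3
    have hVj : 0 < V (k - 1 - j) := hVpos _ (by omega)
    have h4 : R (k - 1 - j) = ε j * L ^ 2 * V (k - 1 - j) := by
      simp only [hε]; field_simp
    have h5 : (9 / 10 * L) ^ (j + 1) * V (k - 1 - j) ≤ V k := by
      have := hVpow (j + 1) (by omega)
      rwa [show k - (j + 1) = k - 1 - j by omega] at this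
    have h6 : L ^ (j + 1) * V (k - 1 - j) ≤ (10 / 9) ^ (j + 1) * V k := by
      calc L ^ (j + 1) * V (k - 1 - j)
          = (10 / 9) ^ (j + 1) * ((9 / 10 * L) ^ (j + 1) * V (k - 1 - j)) := by
            rw [← mul_assoc, ← mul_pow]
            congr 2
            ring
        _ ≤ _ := by
            apply mul_le_mul_of_nonneg_left h5; positivity
    have h7 : Q ^ n ≤ (1 / 10 ^ 9) ^ n * L ^ n := by
      rw [← mul_pow]
      apply pow_le_pow_left₀ hQp.le
      linarith
    have h8 : L ^ n * L ^ (j - (n + 1)) * L ^ 2 = L ^ (j + 1) := by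
      rw [← pow_add, ← pow_add]
      congr 1
      omega
    calc ((10 : ℝ) ^ 5) ^ (n + 1) * Q ^ n * (L ^ (j - (n + 1)) * R (k - 1 - j))
        = ((10 : ℝ) ^ 5) ^ (n + 1) * Q ^ n * (L ^ (j - (n + 1)) * L ^ 2 * V (k - 1 - j)) * ε j := by
          rw [h4]; ring
      _ ≤ ((10 : ℝ) ^ 5) ^ (n + 1) * ((1 / 10 ^ 9) ^ n * L ^ n) *
          (L ^ (j - (n + 1)) * L ^ 2 * V (k - 1 - j)) * ε j := by
          apply mul_le_mul_of_nonneg_right _ (hε0 j)
          apply mul_le_mul_of_nonneg_right _ (by positivity)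
          apply mul_le_mul_of_nonneg_left h7 (by positivity)
      _ = ((10 : ℝ) ^ 5) ^ (n + 1) * (1 / 10 ^ 9) ^ n *
          ((L ^ n * L ^ (j - (n + 1)) * L ^ 2) * V (k - 1 - j)) * ε j := by ring
      _ = ((10 : ℝ) ^ 5) ^ (n + 1) * (1 / 10 ^ 9) ^ n * (L ^ (j + 1) * V (k - 1 - j)) * ε j := by
          rw [h8]
      _ ≤ ((10 : ℝ) ^ 5) ^ (n + 1) * (1 / 10 ^ 9) ^ n * ((10 / 9) ^ (j + 1) * V k) * ε j := by
          apply mul_le_mul_of_nonneg_right _ (hε0 j)
          apply mul_le_mul_of_nonneg_left h6 (by positivity)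
      _ = (((10 : ℝ) ^ 5) ^ (n + 1) * (1 / 10 ^ 9) ^ n * (10 / 9) ^ (j + 1)) * (ε j * V k) := by
          ring
      _ ≤ (2 * 10 ^ 7 * (1 / 64) ^ (n + 1) * (1 / 2) ^ j) * (ε j * V k) := by
          apply mul_le_mul_of_nonneg_right (gkb_num n j h2)
          exact mul_nonneg (hε0 j) hVk.le
      _ = _ := by ring
  -- the claim
  have hclaim : ∀ d n : ℕ, n + d = k → S (n + 1) ≤ (1 / 64) ^ (n + 1) *
      (128 * (1 / 2) ^ k + 4 * 10 ^ 7 * ∑ j ∈ Ico (n + 1) k, (1 / 2) ^ j * ε j) * V k := by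
    intro d
    induction d using Nat.strong_induction_on with
    | _ d ih =>
      intro n hn
      have hsum0 : 0 ≤ ∑ j ∈ Ico (n + 1) k, (1 / 2 : ℝ) ^ j * ε j := by
        apply Finset.sum_nonneg
        intro j _
        exact mul_nonneg (by positivity) (hε0 j)
      by_cases hc : 3 * (n + 1) ≤ k + 1
      · have h1 := hD (n + 1) (by omega) hc
        have h2 := ih (k - (2 * n + 1)) (by omega) (2 * n + 1) (by omega)
        have h3 : 2 * (n + 1) = 2 * n + 1 + 1 := by ring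
        rw [h3] at h1
        have h4 : ∑ j ∈ Ico (2 * n + 1 + 1) k, (1 / 2 : ℝ) ^ j * ε j ≤
            ∑ j ∈ Ico (n + 1) k, (1 / 2 : ℝ) ^ j * ε j := by
          apply Finset.sum_le_sum_of_subset_of_nonneg
          · apply Finset.Ico_subset_Ico (by omega) le_rfl
          · intro j _ _
            exact mul_nonneg (by positivity) (hε0 j)
        have h5 : ((10 : ℝ) ^ 5) ^ (n + 1) * Q ^ (n + 1 - 1) *
            ∑ j ∈ Ico (n + 1) (3 * (n + 1) - 1), L ^ (j - (n + 1)) * R (k - 1 - j) ≤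
            (2 * 10 ^ 7 * (1 / 64) ^ (n + 1)) *
              (∑ j ∈ Ico (n + 1) k, (1 / 2 : ℝ) ^ j * ε j) * V k := by
          calc ((10 : ℝ) ^ 5) ^ (n + 1) * Q ^ (n + 1 - 1) *
            ∑ j ∈ Ico (n + 1) (3 * (n + 1) - 1), L ^ (j - (n + 1)) * R (k - 1 - j)
              ≤ ∑ j ∈ Ico (n + 1) (3 * (n + 1) - 1),
                (2 * 10 ^ 7 * (1 / 64) ^ (n + 1)) * ((1 / 2) ^ j * ε j) * V k := by
                rw [Finset.mul_sum]
                apply Finset.sum_le_sum
                intro j hj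
                rw [Finset.mem_Ico] at hj
                exact hterm n j hj.1 (by omega) (by omega)
            _ ≤ ∑ j ∈ Ico (n + 1) k,
                (2 * 10 ^ 7 * (1 / 64) ^ (n + 1)) * ((1 / 2) ^ j * ε j) * V k := by
                apply Finset.sum_le_sum_of_subset_of_nonneg
                · apply Finset.Ico_subset_Ico le_rfl (by omega)
                · intro j _ _
                  have := hε0 j
                  positivity
            _ = _ := by
                rw [Finset.mul_sum, Finset.sum_mul]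
        have h6 : (2 : ℝ) * 16 ^ (n + 1) * (1 / 64) ^ (2 * n + 1 + 1) ≤
            1 / 2 * (1 / 64) ^ (n + 1) := by
          have h7 : (2 : ℝ) * 16 ^ (n + 1) * (1 / 64) ^ (2 * n + 1 + 1) =
              (1 / 2 * (1 / 64) ^ (n + 1)) * (1 / 4) ^ n := by
            rw [show 2 * n + 1 + 1 = (n + 1) + (n + 1) by ring, pow_add, pow_succ (16 : ℝ),
              pow_succ (1 / 64 : ℝ)]
            rw [show (1 / 4 : ℝ) ^ n = 16 ^ n * (1 / 64) ^ n by rw [← mul_pow]; norm_num]
            ring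
          rw [h7]
          have h8 : (1 / 4 : ℝ) ^ n ≤ 1 := pow_le_one₀ (by norm_num) (by norm_num)
          have h9 : (0 : ℝ) ≤ 1 / 2 * (1 / 64) ^ (n + 1) := by positivity
          nlinarith
        set s1 := ∑ j ∈ Ico (2 * n + 1 + 1) k, (1 / 2 : ℝ) ^ j * ε j with hs1
        set s2 := ∑ j ∈ Ico (n + 1) k, (1 / 2 : ℝ) ^ j * ε j with hs2
        have hs10 : 0 ≤ s1 := by
          apply Finset.sum_nonneg
          intro j _
          exact mul_nonneg (by positivity) (hε0 j)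
        calc S (n + 1) ≤ 2 * 16 ^ (n + 1) * S (2 * n + 1 + 1) +
            (10 ^ 5) ^ (n + 1) * Q ^ (n + 1 - 1) *
              ∑ j ∈ Ico (n + 1) (3 * (n + 1) - 1), L ^ (j - (n + 1)) * R (k - 1 - j) := h1
          _ ≤ 2 * 16 ^ (n + 1) * ((1 / 64) ^ (2 * n + 1 + 1) *
              (128 * (1 / 2) ^ k + 4 * 10 ^ 7 * s1) * V k) +
              (2 * 10 ^ 7 * (1 / 64) ^ (n + 1)) * s2 * V k := by
              apply add_le_add _ h5
              apply mul_le_mul_of_nonneg_left h2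
              positivity
          _ = (2 * 16 ^ (n + 1) * (1 / 64) ^ (2 * n + 1 + 1)) *
              ((128 * (1 / 2) ^ k + 4 * 10 ^ 7 * s1) * V k) +
              (2 * 10 ^ 7 * (1 / 64) ^ (n + 1)) * s2 * V k := by ring
          _ ≤ (1 / 2 * (1 / 64) ^ (n + 1)) *
              ((128 * (1 / 2) ^ k + 4 * 10 ^ 7 * s2) * V k) +
              (2 * 10 ^ 7 * (1 / 64) ^ (n + 1)) * s2 * V k := by
              apply add_le_add _ le_rfl
              apply mul_le_mul h6 _ (by positivity) (by positivity)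
              apply mul_le_mul_of_nonneg_right _ hVk.le
              linarith
          _ ≤ _ := by
              have h10 : 0 ≤ (1 / 64 : ℝ) ^ (n + 1) * (1 / 2) ^ k * V k := by positivity
              nlinarith
      · have h1 := hSb n (by omega)
        have h2 := hVpow n (by omega)
        have h3 : Q ^ n ≤ (1 / 10 ^ 9) ^ n * L ^ n := by
          rw [← mul_pow]
          apply pow_le_pow_left₀ hQp.le
          linarith
        have hVn : 0 < V (k - n) := hVpos _ (by omega)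
        have h4 : S (n + 1) ≤ ((1 / 10 ^ 9) * (10 / 9)) ^ n * V k := by
          calc S (n + 1) ≤ Q ^ n * V (k - n) := h1
            _ ≤ ((1 / 10 ^ 9) ^ n * L ^ n) * V (k - n) := by
                apply mul_le_mul_of_nonneg_right h3 hVn.le
            _ = ((1 / 10 ^ 9) * (10 / 9)) ^ n * ((9 / 10 * L) ^ n * V (k - n)) := by
                rw [← mul_assoc, ← mul_pow, ← mul_pow]
                congr 2
                ring
            _ ≤ _ := by
                apply mul_le_mul_of_nonneg_left h2; positivity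
        have h5 : ((1 / 10 ^ 9) * (10 / 9) : ℝ) ^ n ≤
            (1 / 64) ^ (n + 1) * (128 * (1 / 2) ^ k) := by
          have h6 : (1 / 2 : ℝ) ^ (3 * n + 1) ≤ (1 / 2) ^ k := by
            apply pow_le_pow_of_le_one (by norm_num) (by norm_num) (by omega)
          calc ((1 / 10 ^ 9) * (10 / 9) : ℝ) ^ n ≤ (1 / 64 * (1 / 8)) ^ n := by
                apply pow_le_pow_left₀ (by norm_num) (by norm_num)
            _ = (1 / 64) ^ (n + 1) * (128 * (1 / 2) ^ (3 * n + 1)) := by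
                rw [pow_succ (1 / 64 : ℝ), pow_succ (1 / 2 : ℝ), pow_mul, mul_pow]
                norm_num
                ring
            _ ≤ _ := by
                apply mul_le_mul_of_nonneg_left _ (by positivity)
                linarith
        calc S (n + 1) ≤ ((1 / 10 ^ 9) * (10 / 9)) ^ n * V k := h4
          _ ≤ ((1 / 64) ^ (n + 1) * (128 * (1 / 2) ^ k)) * V k := by
              apply mul_le_mul_of_nonneg_right h5 hVk.le
          _ ≤ _ := by
              apply mul_le_mul_of_nonneg_right _ hVk.le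
              apply mul_le_mul_of_nonneg_left _ (by positivity)
              linarith
  have hfin := hclaim k 0 (by omega)
  refine hfin.trans ?_
  apply mul_le_mul_of_nonneg_right _ hVk.le
  have hsum0 : 0 ≤ ∑ j ∈ Ico 1 k, (1 / 2 : ℝ) ^ j * ε j := by
    apply Finset.sum_nonneg
    intro j _
    exact mul_nonneg (by positivity) (hε0 j)
  simp only [zero_add]
  have : (1 / 64 : ℝ) ^ 1 * (128 * (1 / 2) ^ k + 4 * 10 ^ 7 * ∑ j ∈ Ico 1 k, (1 / 2 : ℝ) ^ j * ε j) =
      2 * (1 / 2) ^ k + 625000 * ∑ j ∈ Ico 1 k, (1 / 2 : ℝ) ^ j * ε j := by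
    ring
  rw [this]
  have h10 : (625000 : ℝ) * ∑ j ∈ Ico 1 k, (1 / 2 : ℝ) ^ j * ε j ≤
      10 ^ 6 * ∑ j ∈ Ico 1 k, (1 / 2 : ℝ) ^ j * ε j := by
    apply mul_le_mul_of_nonneg_right (by norm_num) hsum0
  linarith

end Pool.Agent.H18.KC
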