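import Pool.Agent.H7.KC.Stmts

/-! # Board kc15, row BDJ -/

set_option autoImplicit false

open Finset

namespace Pool.KC7

open Pool.Agent.H23.KT Pool.Agent.H46.KW Pool.KQ Pool.GT7 Pool.GU7 Pool.HZ7 Pool.IA7

theorem bdj_thm (h1 : BGJStmt) (h2 : NUJStmt) : BDJStmt := by
  intro p w r hP
  obtain ⟨g, hg, ⟨a₁, h3⟩, K₁, hK₁, a₂, h4⟩ := h2 p w r hP
  have hr := hP.rp
  exact h1 p w r (mJ p w) (((w : ℝ) + 1) / ((w : ℝ) + 2)) g (by omega) le_rfl hg a₁ h3 K₁ hK₁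
    a₂ h4

end Pool.KC7
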